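import Pool.Agent.Run7.h225.HP.Iface

/-!
# Project HPL (helper225), piece IND (helper704)

The multiple polylogarithms are linearly independent over a differential field generated by power series, if
`log (1 - z)` is not in this field.
-/

set_option autoImplicit false
set_option linter.all false

open PowerSeries
open Pool.Agent.Y119.ML
open Pool.Agent.W924.LF (eul coeff_eul)

namespace Pool.Agent.Run7.h704.HP

open Pool.Agent.Run7.h225.HP

attribute [-instance] HahnSeries.powerSeriesAlgebra

/-! ### The derivatives of the multiple polylogarithms -/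

theorem coeff_li (s : List ℕ) (k : ℕ) : coeff k (li s) = mz s k := by
  unfold li
  rw [coeff_mk]

theorem li_nil : li [] = 1 := by
  ext k
  rw [coeff_li, coeff_one]
  rfl

theorem coeff_theta (f : ℚ⟦X⟧) (k : ℕ) : coeff k (X * d⁄dX ℚ f) = k * coeff k f := by
  cases k with
  | zero => simp
  | succ n =>
    rw [mul_comm X, coeff_succ_mul_X, coeff_derivative]
    push_cast
    ring

theorem theta_cons_succ (a : ℕ) (l : List ℕ) :
    X * d⁄dX ℚ (li ((a + 2) :: l)) = li ((a + 1) :: l) := by
  ext k
  rw [coeff_theta, coeff_li, coeff_li]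
  show (k : ℚ) * ((∑ j ∈ Finset.range k, mz l j) / (k : ℚ) ^ (a + 2)) =
    (∑ j ∈ Finset.range k, mz l j) / (k : ℚ) ^ (a + 1)
  rcases Nat.eq_zero_or_pos k with rfl | hk
  · simp
  · have : (k : ℚ) ≠ 0 := by positivity
    rw [pow_succ _ (a + 1)]
    field_simp

theorem theta_cons_one (l : List ℕ) : X * d⁄dX ℚ (li (1 :: l)) = (X * geo 1) * li l := by
  ext k
  rw [coeff_theta, coeff_li]
  show (k : ℚ) * ((∑ j ∈ Finset.range k, mz l j) / (k : ℚ) ^ 1) = _
  rcases Nat.eq_zero_or_pos k with rfl | hk
  · simp
  · obtain ⟨n, rfl⟩ : ∃ n, k = n + 1 := ⟨k - 1, by omega⟩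
    have : ((n + 1 : ℕ) : ℚ) ≠ 0 := by positivity
    rw [pow_one, mul_div_cancel₀ _ this, mul_assoc, coeff_succ_X_mul, coeff_mul,
      Finset.Nat.sum_antidiagonal_eq_sum_range_succ (fun i j => coeff i (geo 1) * coeff j (li l)),
      ← Finset.sum_range_reflect]
    refine Finset.sum_congr rfl fun j hj => ?_
    rw [Finset.mem_range] at hj
    rw [coeff_li]
    unfold geo
    rw [coeff_mk]
    simp only [Int.cast_one, one_pow, one_mul]
    congr 1

/-! ### The field -/

section field

variable {N : ℕ} (h : Fin N → ℚ⟦X⟧)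

/-- the values of the polynomials -/
noncomputable def E : MvPolynomial (Fin N) (Polynomial ℚ) →+* FF :=
  io.comp (MvPolynomial.aeval h : MvPolynomial (Fin N) (Polynomial ℚ) →ₐ[Polynomial ℚ] ℚ⟦X⟧).toRingHom

theorem E_apply (P : MvPolynomial (Fin N) (Polynomial ℚ)) : E h P = io (MvPolynomial.aeval h P) := rfl

theorem E_C (p : Polynomial ℚ) : E h (MvPolynomial.C p) = pio p := by
  rw [E_apply, MvPolynomial.aeval_C, pio_apply]
  rfl

theorem E_X (i : Fin N) : E h (MvPolynomial.X i) = io (h i) := by
  rw [E_apply, MvPolynomial.aeval_X]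

/-- the field generated by `z` and the functions `h` -/
noncomputable def Kh : Subfield FF := Subfield.closure (Set.range (E h))

theorem mem_Kh {x : FF} : x ∈ Kh h ↔ ∃ P Q, E h Q ≠ 0 ∧ x = E h P / E h Q := by
  constructor
  · intro hx
    rw [Kh, Subfield.mem_closure_iff] at hx
    have h1 : Subring.closure (Set.range (E h)) = (E h).range := by
      rw [← RingHom.coe_range, Subring.closure_eq]
    rw [h1] at hx
    obtain ⟨_, ⟨p, rfl⟩, _, ⟨q, rfl⟩, rfl⟩ := hx
    by_cases hq : E h q = 0
    · exact ⟨0, 1, by rw [map_one]; exact one_ne_zero, by rw [hq]; simp⟩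
    · exact ⟨p, q, hq, rfl⟩
  · rintro ⟨p, q, -, rfl⟩
    exact div_mem (Subfield.subset_closure ⟨p, rfl⟩) (Subfield.subset_closure ⟨q, rfl⟩)

theorem E_mem (P : MvPolynomial (Fin N) (Polynomial ℚ)) : E h P ∈ Kh h :=
  Subfield.subset_closure ⟨P, rfl⟩

theorem pio_mem' (p : Polynomial ℚ) : pio p ∈ Kh h := by
  rw [← E_C h]
  exact E_mem h _

variable {T : Polynomial ℚ} {A : Fin N → Fin N → Polynomial ℚ} (hT : T ≠ 0)
  (hA : ∀ i, (T : ℚ⟦X⟧) * d⁄dX ℚ (h i) = ∑ j, (A i j : ℚ⟦X⟧) * h j)

include hT hA in
theorem eul_h (i : Fin N) : eul (io (h i)) ∈ Kh h := by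
  have h1 : pio T ≠ 0 := fun e => hT (pio_inj (by rw [e, map_zero]))
  have h2 : eul (io (h i)) = E h (MvPolynomial.C Polynomial.X * ∑ j, MvPolynomial.C (A i j) *
      MvPolynomial.X j) / pio T := by
    have h3 := congrArg io (hA i)
    rw [map_mul, map_sum] at h3
    rw [eq_div_iff h1, eul_io, map_mul io, map_mul (E h), map_sum (E h), E_C, pio_apply, pio_apply,
      Polynomial.coe_X]
    simp only [map_mul, E_C, E_X, pio_apply]
    simp only [map_mul] at h3
    rw [← h3]
    ring
  rw [h2]
  exact div_mem (E_mem h _) (pio_mem' h _)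

include hT hA in
theorem eul_E (P : MvPolynomial (Fin N) (Polynomial ℚ)) : eul (E h P) ∈ Kh h := by
  induction P using MvPolynomial.induction_on with
  | C p =>
    rw [E_C, eul_pio]
    exact pio_mem' h _
  | add p q hp hq =>
    rw [map_add, map_add]
    exact add_mem hp hq
  | mul_X p i hp =>
    rw [map_mul, Derivation.leibniz, smul_eq_mul, smul_eq_mul, E_X]
    refine add_mem (mul_mem (E_mem h _) (eul_h h hT hA i)) (mul_mem ?_ hp)
    rw [← E_X]
    exact E_mem h _

include hT hA in
theorem eul_Kh (x : FF) (hx : x ∈ Kh h) : eul x ∈ Kh h := by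
  obtain ⟨P, Q, hQ, hxe⟩ := (mem_Kh h).1 hx
  have hP := eul_E h hT hA P
  have hQ' := eul_E h hT hA Q
  have h1 : E h P = x * E h Q := by rw [hxe, div_mul_cancel₀ _ hQ]
  have h2 : eul (E h P) = x * eul (E h Q) + E h Q * eul x := by
    rw [h1, Derivation.leibniz, smul_eq_mul, smul_eq_mul]
  have h3 : eul x = (eul (E h P) - x * eul (E h Q)) / E h Q := by
    rw [eq_div_iff hQ, h2]
    ring
  rw [h3]
  exact div_mem (sub_mem hP (mul_mem hx hQ')) (E_mem h Q)

end field

/-- constants -/
theorem const_eq (c : FF) (hc : eul c = 0) : c = pio (Polynomial.C (c.coeff 0)) := by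
  ext n
  have h1 := congrArg (fun x : FF => x.coeff n) hc
  simp only [coeff_eul, HahnSeries.coeff_zero, mul_eq_zero, Int.cast_eq_zero] at h1
  rw [pio_apply, Polynomial.coe_C]
  rcases lt_or_ge n 0 with hn | hn
  · rw [coeff_io_neg _ hn]
    rcases h1 with h1 | h1
    · omega
    · exact h1
  · obtain ⟨m, rfl⟩ : ∃ m : ℕ, n = (m : ℤ) := ⟨n.toNat, by omega⟩
    rw [coeff_io, PowerSeries.coeff_C]
    split_ifs with hm
    · rw [hm]; rfl
    · rcases h1 with h1 | h1
      · exact absurd (by exact_mod_cast h1) hm
      · exact h1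

/-- the forms -/
noncomputable def uu : Bool → FF
  | false => 1
  | true => io (X * geo 1)

theorem geo_pio : io (X * geo 1) = pio Polynomial.X / pio (1 - Polynomial.X) := by
  have h1 : pio (1 - Polynomial.X) ≠ 0 := by
    intro e
    have h2 := pio_inj (e.trans (map_zero pio).symm)
    have h3 := congrArg (Polynomial.eval 0) h2
    simp at h3
  rw [eq_div_iff h1, pio_apply, pio_apply, ← map_mul, Polynomial.coe_sub, Polynomial.coe_one,
    Polynomial.coe_X]
  congr 1
  have := geo_mul 1
  rw [Int.cast_one, one_mul] at this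
  calc X * geo 1 * (1 - X) = X * ((1 - X) * geo 1) := by ring
    _ = X := by rw [this, mul_one]

theorem eul_li1 : eul (io (li [1])) = io (X * geo 1) := by
  rw [eul_io, theta_cons_one, li_nil, mul_one]

theorem hprim {N : ℕ} (h : Fin N → ℚ⟦X⟧) (hN : NoLog h) (c : Bool → FF) (g : FF)
    (hc : ∀ i, c i ∈ Kh h) (hc0 : ∀ i, eul (c i) = 0) (hg : g ∈ Kh h)
    (he : eul g = ∑ i, c i * uu i) : ∀ i, c i = 0 := by
  have hcc := fun i => const_eq (c i) (hc0 i)
  rw [Fintype.sum_bool] at he
  simp only [uu, mul_one] at he
  -- the coefficient at `0`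
  have hf : c false = 0 := by
    have h1 := congrArg (fun x : FF => x.coeff 0) he
    simp only [coeff_eul, HahnSeries.coeff_add] at h1
    rw [hcc true, hcc false, pio_apply, pio_apply, ← map_mul] at h1
    have h2 := coeff_io (((Polynomial.C ((c true).coeff 0) : Polynomial ℚ) : ℚ⟦X⟧) * (X * geo 1)) 0
    have h3 := coeff_io (((Polynomial.C ((c false).coeff 0) : Polynomial ℚ) : ℚ⟦X⟧)) 0
    rw [Nat.cast_zero] at h2 h3
    rw [h2, h3] at h1
    simp only [Int.cast_zero, zero_mul, coeff_zero_eq_constantCoeff, map_mul, constantCoeff_X,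
      mul_zero, zero_add, Polynomial.coe_C, constantCoeff_C] at h1
    rw [hcc false, ← h1]
    simp
  rw [hf, add_zero] at he
  have ht : c true = 0 := by
    by_contra hne
    set c₁ : ℚ := (c true).coeff 0 with hc₁
    have hct : c true = pio (Polynomial.C c₁) := hcc true
    have hc₁0 : c₁ ≠ 0 := by
      intro e
      rw [e] at hct
      exact hne (by rw [hct]; simp)
    -- the difference is constant
    have h1 : eul (g - c true * io (li [1])) = 0 := by
      rw [map_sub, Derivation.leibniz, smul_eq_mul, smul_eq_mul, hc0 true, eul_li1, he]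
      ring
    have h2 := const_eq _ h1
    set c₂ : ℚ := (g - c true * io (li [1])).coeff 0 with hc₂
    obtain ⟨R, P, hP, hgP⟩ := (mem_Kh h).1 hg
    have h3 : g = pio (Polynomial.C c₁) * io (li [1]) + pio (Polynomial.C c₂) := by
      rw [← h2, hct]
      ring
    have h4 : E h R = E h P * (pio (Polynomial.C c₁) * io (li [1]) + pio (Polynomial.C c₂)) := by
      rw [← h3, hgP]
      field_simp
    have hc₁' : pio (Polynomial.C c₁⁻¹) * pio (Polynomial.C c₁) = 1 := by
      rw [← map_mul, ← Polynomial.C_mul, inv_mul_cancel₀ hc₁0, Polynomial.C_1, map_one]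
    have h5 : E h P * io (li [1]) = E h (MvPolynomial.C (Polynomial.C c₁⁻¹) * R -
        MvPolynomial.C (Polynomial.C c₁⁻¹) * MvPolynomial.C (Polynomial.C c₂) * P) := by
      rw [map_sub, map_mul, map_mul, map_mul, E_C, E_C, h4]
      linear_combination (-(E h P * io (li [1]))) * hc₁'
    have h6 : MvPolynomial.aeval h P = 0 := hN P (MvPolynomial.C (Polynomial.C c₁⁻¹) * R -
        MvPolynomial.C (Polynomial.C c₁⁻¹) * MvPolynomial.C (Polynomial.C c₂) * P) (by
      apply io_inj
      rw [map_mul io]
      exact h5)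
    apply hP
    rw [E_apply, h6, map_zero]
  intro i
  cases i
  · exact hf
  · exact ht

/-! ### The indices -/

section idx

variable {W : ℕ}

open Classical in
/-- the matrices of the system -/
noncomputable def nn : Bool → Idx W → Idx W → ℚ
  | false, b, b' => if ∃ a l, b.1 = (a + 2) :: l ∧ b'.1 = (a + 1) :: l then 1 else 0
  | true, b, b' => if b.1 = 1 :: b'.1 then 1 else 0

theorem nn_deg (i : Bool) (b b' : Idx W) (h : nn i b b' ≠ 0) : b.1.sum = b'.1.sum + 1 := by
  cases i
  · simp only [nn] at h
    split_ifs at h with h1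
    · obtain ⟨a, l, h2, h3⟩ := h1
      rw [h2, h3]
      simp only [List.sum_cons]
      omega
    · exact absurd rfl h
  · simp only [nn] at h
    split_ifs at h with h1
    · rw [h1]
      simp only [List.sum_cons]
      omega
    · exact absurd rfl h

/-- the cases of an index -/
theorem idx_cases (b : Idx W) : b.1 = [] ∨ (∃ a l, b.1 = (a + 2) :: l) ∨ ∃ l, b.1 = 1 :: l := by
  obtain ⟨s, hs1, hs2⟩ := b
  rcases s with _ | ⟨x, l⟩
  · exact Or.inl rfl
  · have hx := hs1 x (List.mem_cons_self ..)
    rcases Nat.lt_or_ge x 2 with h | h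
    · have : x = 1 := by omega
      subst this
      exact Or.inr (Or.inr ⟨l, rfl⟩)
    · exact Or.inr (Or.inl ⟨x - 2, l, by simp only; congr 1; omega⟩)

/-- the predecessor -/
def prd (b : Idx W) (t : List ℕ) (x : ℕ) (y : ℕ) (l : List ℕ) (hb : b.1 = x :: l) (hy : 1 ≤ y)
    (hyx : y ≤ x) (ht : t = y :: l) : Idx W :=
  ⟨t, by
    rw [ht]
    intro z hz
    rcases List.mem_cons.1 hz with rfl | hz
    · exact hy
    · exact b.2.1 z (by rw [hb]; exact List.mem_cons_of_mem _ hz), by
    have := b.2.2
    rw [hb] at this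
    rw [ht]
    simp only [List.sum_cons] at this ⊢
    omega⟩

/-- the tail -/
def tl (b : Idx W) (x : ℕ) (l : List ℕ) (hb : b.1 = x :: l) : Idx W :=
  ⟨l, fun z hz => b.2.1 z (by rw [hb]; exact List.mem_cons_of_mem _ hz), by
    have := b.2.2
    rw [hb] at this
    simp only [List.sum_cons] at this
    omega⟩

theorem hf (b : Idx W) : eul (io (li b.1)) =
    ∑ b' : Idx W, (∑ i, (nn i b b' : FF) * uu i) * io (li b'.1) := by
  classical
  simp only [Fintype.sum_bool]
  rcases idx_cases b with h | ⟨a, l, h⟩ | ⟨l, h⟩
  · rw [h, li_nil, map_one, Derivation.map_one_eq_zero]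
    symm
    refine Finset.sum_eq_zero fun b' _ => ?_
    have h1 : nn true b b' = 0 := by
      simp only [nn]
      rw [if_neg (by rw [h]; exact (List.cons_ne_nil _ _).symm)]
    have h2 : nn false b b' = 0 := by
      simp only [nn]
      rw [if_neg]
      rintro ⟨a, l, h3, -⟩
      rw [h] at h3
      exact (List.cons_ne_nil _ _).symm h3
    rw [h1, h2]
    simp
  · set b₁ : Idx W := prd b ((a + 1) :: l) (a + 2) (a + 1) l h (by omega) (by omega) rfl with hb₁
    rw [Finset.sum_eq_single b₁]
    · have h1 : nn true b b₁ = 0 := by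
        simp only [nn]
        rw [if_neg]
        rw [h]
        intro e
        have := (List.cons.inj e).1
        omega
      have h2 : nn false b b₁ = 1 := by
        simp only [nn]
        rw [if_pos ⟨a, l, h, rfl⟩]
      rw [h1, h2, h, eul_io, theta_cons_succ]
      simp only [uu, Rat.cast_zero, Rat.cast_one, zero_mul, one_mul, zero_add]
      rfl
    · intro b' _ hne
      have h1 : nn true b b' = 0 := by
        simp only [nn]
        rw [if_neg]
        rw [h]
        intro e
        have := (List.cons.inj e).1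
        omega
      have h2 : nn false b b' = 0 := by
        simp only [nn]
        rw [if_neg]
        rintro ⟨a', l', h3, h4⟩
        rw [h] at h3
        obtain ⟨e1, e2⟩ := List.cons.inj h3
        apply hne
        apply Subtype.ext
        rw [h4]
        show _ = (a + 1) :: l
        rw [e2]
        congr 1
        omega
      rw [h1, h2]
      simp
    · intro hn
      exact absurd (Finset.mem_univ _) hn
  · set b₁ : Idx W := tl b 1 l h with hb₁
    rw [Finset.sum_eq_single b₁]
    · have h1 : nn true b b₁ = 1 := by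
        simp only [nn]
        rw [if_pos]
        exact h
      have h2 : nn false b b₁ = 0 := by
        simp only [nn]
        rw [if_neg]
        rintro ⟨a', l', h3, h4⟩
        rw [h] at h3
        have := (List.cons.inj h3).1
        omega
      rw [h1, h2, h, eul_io, theta_cons_one]
      simp only [uu, Rat.cast_zero, Rat.cast_one, zero_mul, one_mul, add_zero]
      rw [map_mul]
      rfl
    · intro b' _ hne
      have h1 : nn true b b' = 0 := by
        simp only [nn]
        rw [if_neg]
        rw [h]
        intro e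
        apply hne
        apply Subtype.ext
        exact (List.cons.inj e).2.symm
      have h2 : nn false b b' = 0 := by
        simp only [nn]
        rw [if_neg]
        rintro ⟨a', l', h3, h4⟩
        rw [h] at h3
        have := (List.cons.inj h3).1
        omega
      rw [h1, h2]
      simp
    · intro hn
      exact absurd (Finset.mem_univ _) hn

theorem hnd (m : ℕ) (l : Idx W → FF) (hl : ∀ b : Idx W, b.1.sum ≠ m + 1 → l b = 0)
    (hs : ∀ i b', ∑ b, (nn i b b' : FF) * l b = 0) (b : Idx W) : l b = 0 := by
  classical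
  rcases idx_cases b with h | ⟨a, t, h⟩ | ⟨t, h⟩
  · apply hl
    rw [h]
    simp
  · have h1 := hs false (prd b ((a + 1) :: t) (a + 2) (a + 1) t h (by omega) (by omega) rfl)
    rw [Finset.sum_eq_single b] at h1
    · have h2 : nn false b (prd b ((a + 1) :: t) (a + 2) (a + 1) t h (by omega) (by omega) rfl) = 1 := by
        simp only [nn]
        rw [if_pos ⟨a, t, h, rfl⟩]
      rw [h2, Rat.cast_one, one_mul] at h1
      exact h1
    · intro b' _ hne
      have h2 : nn false b' (prd b ((a + 1) :: t) (a + 2) (a + 1) t h (by omega) (by omega) rfl) = 0 := by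
        simp only [nn]
        rw [if_neg]
        rintro ⟨a', l', h3, h4⟩
        have h4' : (a + 1) :: t = (a' + 1) :: l' := h4
        obtain ⟨e1, e2⟩ := List.cons.inj h4'
        apply hne
        apply Subtype.ext
        rw [h3, h, e2]
        congr 1
        omega
      rw [h2, Rat.cast_zero, zero_mul]
    · intro hn
      exact absurd (Finset.mem_univ _) hn
  · have h1 := hs true (tl b 1 t h)
    rw [Finset.sum_eq_single b] at h1
    · have h2 : nn true b (tl b 1 t h) = 1 := by
        simp only [nn]
        rw [if_pos]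
        exact h
      rw [h2, Rat.cast_one, one_mul] at h1
      exact h1
    · intro b' _ hne
      have h2 : nn true b' (tl b 1 t h) = 0 := by
        simp only [nn]
        rw [if_neg]
        intro h3
        apply hne
        apply Subtype.ext
        rw [h3, h]
        rfl
      rw [h2, Rat.cast_zero, zero_mul]
    · intro hn
      exact absurd (Finset.mem_univ _) hn

end idx

theorem p_IND : S_IND := by
  classical
  intro N h T A hT hA hN σ _ F hF W
  rw [Fintype.linearIndependent_iff] at hF ⊢
  intro q hq
  -- the coefficients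
  set g : Idx W → FF := fun s => ∑ β, E h (MvPolynomial.C (q (β, s)) * F β) with hg
  have hg0 : ∀ s, g s = 0 := by
    refine graded_indep (eul : Derivation ℚ FF FF) (Kh h) (eul_Kh h hT hA) uu ?_
      (fun c g hc hc0 hg he => hprim h hN c g hc hc0 hg he) (fun b : Idx W => b.1.sum)
      (fun b => io (li b.1)) nn nn_deg hf ?_ (fun m l _ _ hl hs => hnd m l hl hs) g ?_ ?_
    · intro i
      cases i
      · exact one_mem _
      · show io (X * geo 1) ∈ Kh h
        rw [geo_pio]
        exact div_mem (pio_mem' h _) (pio_mem' h _)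
    · intro g hg hgd hs b
      by_cases hb : b.1.sum ≠ 0
      · exact hgd b hb
      · push Not at hb
        have hnil : ∀ b : Idx W, b.1.sum = 0 → b.1 = [] := by
          intro b hb
          rcases idx_cases b with h | ⟨a, l, h⟩ | ⟨l, h⟩
          · exact h
          · rw [h, List.sum_cons] at hb
            omega
          · rw [h, List.sum_cons] at hb
            omega
        rw [Finset.sum_eq_single b] at hs
        · rw [hnil b hb, li_nil, map_one, mul_one] at hs
          exact hs
        · intro b' _ hne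
          rw [hgd b', zero_mul]
          intro hb'
          exact hne (Subtype.ext ((hnil b' hb').trans (hnil b hb).symm))
        · intro hn
          exact absurd (Finset.mem_univ _) hn
    · intro s
      exact sum_mem fun β _ => E_mem h _
    · have h1 := congrArg io hq
      rw [map_zero, map_sum, Fintype.sum_prod_type_right] at h1
      rw [← h1]
      refine Finset.sum_congr rfl fun s _ => ?_
      rw [hg, Finset.sum_mul]
      refine Finset.sum_congr rfl fun β _ => ?_
      rw [E_apply, map_mul, MvPolynomial.aeval_C, ← map_mul, Algebra.smul_def]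
      congr 1
      ring
  rintro ⟨β, s⟩
  refine hF (fun β => q (β, s)) ?_ β
  apply io_inj
  rw [map_zero, ← hg0 s, hg, map_sum]
  refine Finset.sum_congr rfl fun β _ => ?_
  rw [E_apply, map_mul, MvPolynomial.aeval_C, Algebra.smul_def]

end Pool.Agent.Run7.h704.HP
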